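import Mathlib

/-!
Every finite interval graph has a max-tolerance representation by intervals of equal length.
-/

set_option autoImplicit false

namespace Pool.Agent.Results.MP_0f9430_co.UnitMaxTolerance

open Finset

/-- `G` is an interval graph: the intersection graph of a family of (nonempty) real intervals,
where an interval is an order-connected set of reals (open, closed, half-open, bounded or not). -/
def IsIntervalGraph {V : Type*} (G : SimpleGraph V) : Prop :=
  ∃ I : V → Set ℝ, (∀ v, (I v).Nonempty ∧ (I v).OrdConnected) ∧
    ∀ u v, u ≠ v → (G.Adj u v ↔ (I u ∩ I v).Nonempty)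

/-- The closed intervals `[L v, R v]` and the tolerances `t v > 0` form a max-tolerance
representation of `G`: distinct `u`, `v` are adjacent iff the length of the intersection of their
intervals is at least `max (t u) (t v)`. -/
def IsMaxToleranceRep {V : Type*} (G : SimpleGraph V) (L R t : V → ℝ) : Prop :=
  (∀ v, L v ≤ R v) ∧ (∀ v, 0 < t v) ∧
    ∀ u v, u ≠ v → (G.Adj u v ↔
      max (t u) (t v) ≤
        (MeasureTheory.volume (Set.Icc (L u) (R u) ∩ Set.Icc (L v) (R v))).toReal)

/-- `G` is a unit max-tolerance graph: it has a max-tolerance representation in which all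
intervals have the same length. -/
def IsUnitMaxTolerance {V : Type*} (G : SimpleGraph V) : Prop :=
  ∃ L R t : V → ℝ, IsMaxToleranceRep G L R t ∧ ∃ l : ℝ, ∀ v, R v - L v = l

/-- Points with radii: the mutual containment representation. -/
lemma of_radii {V : Type*} [Finite V] (G : SimpleGraph V) (x r : V → ℝ)
    (h : ∀ u v, u ≠ v → (G.Adj u v ↔ |x u - x v| ≤ min (r u) (r v))) (hr : ∀ v, 0 ≤ r v) :
    IsUnitMaxTolerance G := by
  classical
  cases nonempty_fintype V
  -- a common length larger than all radii
  obtain ⟨l, hl⟩ : ∃ l : ℝ, ∀ v, r v < l := by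
    obtain ⟨c, hc⟩ := (Set.finite_range r).bddAbove
    exact ⟨c + 1, fun v => by have := hc (Set.mem_range_self v); linarith⟩
  refine ⟨x, fun v => x v + l, fun v => l - r v, ⟨?_, ?_, ?_⟩, l, fun v => by ring⟩
  · intro v
    have := hr v; have := hl v
    show x v ≤ x v + l
    linarith
  · intro v
    have := hl v
    show 0 < l - r v
    linarith
  · intro u v huv
    rw [h u v huv, Set.Icc_inter_Icc, Real.volume_Icc]
    have e1 : max (l - r u) (l - r v) = l - min (r u) (r v) := by
      rcases le_total (r u) (r v) with h' | h'
      · rw [max_eq_left (by linarith), min_eq_left h']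
      · rw [max_eq_right (by linarith), min_eq_right h']
    have e2 : (x u + l) ⊓ (x v + l) - (x u ⊔ x v) = l - |x u - x v| := by
      rcases le_total (x u) (x v) with h' | h'
      · rw [inf_eq_left.2 (by linarith), sup_eq_right.2 h', abs_of_nonpos (by linarith)]; ring
      · rw [inf_eq_right.2 (by linarith), sup_eq_left.2 h', abs_of_nonneg (by linarith)]; ring
    rw [e1, e2]
    have hpos : 0 < l - min (r u) (r v) := by
      have := hl u; have := min_le_left (r u) (r v); linarith
    constructor
    · intro h1
      rw [ENNReal.toReal_ofReal (by linarith)]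
      linarith
    · intro h1
      by_contra h2
      push Not at h2
      rcases le_total 0 (l - |x u - x v|) with h3 | h3
      · rw [ENNReal.toReal_ofReal h3] at h1
        linarith
      · rw [ENNReal.ofReal_of_nonpos h3, ENNReal.toReal_zero] at h1
        linarith

/-- **Main theorem.** Every finite interval graph is a unit max-tolerance graph. -/
theorem result {V : Type*} [Finite V] (G : SimpleGraph V) (hG : IsIntervalGraph G) :
    IsUnitMaxTolerance G := by
  classical
  cases nonempty_fintype V
  obtain ⟨I, hI, hadj⟩ := hG
  -- shrink to closed intervals `[a v, b v]`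
  choose p hp using fun v => (hI v).1
  let q : V → V → ℝ := fun u v => if h : (I u ∩ I v).Nonempty then h.some else p u
  have hq : ∀ u v, q u v ∈ I u := by
    intro u v
    simp only [q]
    split_ifs with h
    · exact h.some_mem.1
    · exact hp u
  have hqs : ∀ u v, (I u ∩ I v).Nonempty → q u v ∈ I v := by
    intro u v h
    simp only [q, dif_pos h]
    exact h.some_mem.2
  have hne : ∀ v : V, ((univ : Finset V).image (fun u => q v u) ∪ univ.image (fun u => if (I u ∩ I v).Nonempty then q u v else p v)).Nonempty :=
    fun v => ⟨q v v, Finset.mem_union_left _ (Finset.mem_image_of_mem _ (mem_univ _))⟩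
  let S : V → Finset ℝ := fun v => (univ : Finset V).image (fun u => q v u) ∪
    univ.image (fun u => if (I u ∩ I v).Nonempty then q u v else p v)
  have hS : ∀ v, ∀ z ∈ S v, z ∈ I v := by
    intro v z hz
    rcases Finset.mem_union.1 hz with h | h
    · obtain ⟨u, _, rfl⟩ := Finset.mem_image.1 h
      exact hq v u
    · obtain ⟨u, _, rfl⟩ := Finset.mem_image.1 h
      split_ifs with h'
      · exact hqs u v h'
      · exact hp v
  let a : V → ℝ := fun v => (S v).min' (hne v)
  let b : V → ℝ := fun v => (S v).max' (hne v)
  have hab : ∀ v, a v ≤ b v := fun v => Finset.min'_le_max' _ _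
  have haI : ∀ v, a v ∈ I v := fun v => hS v _ (Finset.min'_mem _ _)
  have hbI : ∀ v, b v ∈ I v := fun v => hS v _ (Finset.max'_mem _ _)
  have hadj' : ∀ u v, u ≠ v → (G.Adj u v ↔ a u ≤ b v ∧ a v ≤ b u) := by
    intro u v huv
    rw [hadj u v huv]
    constructor
    · intro h
      have h1 : q u v ∈ S u := Finset.mem_union_left _ (Finset.mem_image_of_mem _ (mem_univ v))
      have h2 : q u v ∈ S v := by
        apply Finset.mem_union_right
        refine Finset.mem_image.2 ⟨u, mem_univ _, ?_⟩
        rw [if_pos h]
      exact ⟨(Finset.min'_le _ _ h1).trans (Finset.le_max' _ _ h2),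
        (Finset.min'_le _ _ h2).trans (Finset.le_max' _ _ h1)⟩
    · rintro ⟨h1, h2⟩
      rcases le_total (a u) (a v) with h3 | h3
      · exact ⟨a v, (hI u).2.out (haI u) (hbI u) ⟨h3, h2⟩, haI v⟩
      · exact ⟨a u, haI u, (hI v).2.out (haI v) (hbI v) ⟨h3, h1⟩⟩
  -- sort the vertices by left end point
  let e := Fintype.equivFin V
  let τ := Tuple.sort (a ∘ e.symm)
  have hmono : Monotone ((a ∘ e.symm) ∘ τ) := Tuple.monotone_sort _
  let s : V ≃ Fin (Fintype.card V) := e.trans τ.symm
  have hs : ∀ u v, s u ≤ s v → a u ≤ a v := by
    intro u v h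
    have := hmono h
    simpa [s] using this
  let x : V → ℝ := fun v => (3 : ℝ) ^ ((s v : ℕ))
  have hxpos : ∀ v, 0 < x v := fun v => by positivity
  have hx3 : ∀ u v, s u < s v → 3 * x u ≤ x v := by
    intro u v h
    have h1 : ((s u : ℕ)) + 1 ≤ (s v : ℕ) := h
    calc 3 * x u = (3 : ℝ) ^ ((s u : ℕ) + 1) := by simp only [x]; ring
      _ ≤ (3 : ℝ) ^ ((s v : ℕ)) := pow_le_pow_right₀ (by norm_num) h1
  have hF : ∀ v : V, (univ.filter (fun w => a w ≤ b v)).Nonempty :=
    fun v => ⟨v, by simp [hab v]⟩
  let M : V → ℝ := fun v => (univ.filter (fun w => a w ≤ b v)).sup' (hF v) x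
  let r : V → ℝ := fun v => max (x v) (M v - x v)
  have key : ∀ u v, s u < s v → (G.Adj u v ↔ |x u - x v| ≤ min (r u) (r v)) := by
    intro u v h
    have huv : u ≠ v := by rintro rfl; exact lt_irrefl _ h
    have h3 := hx3 u v h
    have hu := hxpos u
    have hv := hxpos v
    rw [hadj' u v huv, abs_of_nonpos (by linarith)]
    have h4 : a u ≤ a v := hs u v h.le
    have h5 : x v ≤ r v := le_max_left _ _
    constructor
    · rintro ⟨_, h1⟩
      apply le_min
      · have h6 : x v ≤ M u := Finset.le_sup' x (by simp [h1])
        have h7 : M u - x u ≤ r u := le_max_right _ _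
        linarith
      · linarith
    · intro h1
      refine ⟨h4.trans (hab v), ?_⟩
      by_contra h2
      push Not at h2
      have h6 : M u ≤ x v / 3 := by
        apply Finset.sup'_le
        intro w hw
        simp only [mem_filter, mem_univ, true_and] at hw
        have h7 : s w < s v := by
          by_contra h8
          push Not at h8
          have := hs v w h8
          linarith
        have := hx3 w v h7
        linarith
      have h7 : r u < x v - x u := by
        apply max_lt
        · linarith
        · linarith
      have h8 := h1.trans (min_le_left _ _)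
      linarith
  apply of_radii G x r
  · intro u v huv
    rcases lt_trichotomy (s u) (s v) with h | h | h
    · exact key u v h
    · exact absurd (s.injective h) huv
    · rw [G.adj_comm, key v u h, abs_sub_comm, min_comm]
  · intro v
    exact (hxpos v).le.trans (le_max_left _ _)

end Pool.Agent.Results.MP_0f9430_co.UnitMaxTolerance
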